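import Pool.Agent.E8helper87.BT.Main2

/-!
# Brun–Titchmarsh: near-extremal dilates are compensated by almost empty ones

For a progression `P = {m : x - y < m ≤ x, m ≡ l (mod k)}` and `n` prime to `k`, the dilate
`P / n = {m : n m ∈ P}` is again a progression of the same kind, with `y` replaced by `y / n`.
-/

set_option autoImplicit false

namespace Pool.Agent.Results.MP_26a8c3_nt.CompensationH87

open Finset

/-- the number of the `m ∈ Q` with `x - y < n m ≤ x` and `n m ≡ l (mod k)` -/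
noncomputable def cnt (Q : Set ℕ) (x y : ℝ) (k : ℕ) (l : ℤ) (n : ℕ) : ℕ :=
  {m : ℕ | m ∈ Q ∧ x - y < ((n * m : ℕ) : ℝ) ∧ ((n * m : ℕ) : ℝ) ≤ x ∧
    ((n * m : ℕ) : ℤ) ≡ l [ZMOD k]}.ncard

/-- the main term `(y / n) / (φ(k) log ((y / n) / k))` of the dilate by `n` -/
noncomputable def mainTerm (y : ℝ) (k n : ℕ) : ℝ :=
  (y / n) / (Nat.totient k * Real.log (y / n / k))

open Classical in
/-- the sum of `1 / n` over the `U < n ≤ V` prime to `k` with the property `E` -/
noncomputable def mass (k U V : ℕ) (E : ℕ → Prop) : ℝ :=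
  ∑ n ∈ (Ioc U V).filter (fun n => Nat.Coprime n k ∧ E n), 1 / (n : ℝ)

open Pool.Agent.E8helper87.BT

theorem mainTerm_eq (y : ℝ) (k n : ℕ) : mainTerm y k n = MT y k n := by
  unfold mainTerm MT Ph
  rw [div_right_comm y (k : ℝ) (n : ℝ)]
  rcases Nat.eq_zero_or_pos k with h | h
  · simp [h]
  · have : (k : ℝ) ≠ 0 := by exact_mod_cast (by omega : k ≠ 0)
    have e : (k : ℝ) / Nat.totient k * (y / n / k) = (y / n) / Nat.totient k := by
      rw [div_mul_div_comm, mul_comm (k : ℝ), mul_div_mul_right _ _ this]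
    rw [e, div_div (y / (n : ℝ))]

theorem cnt_eq (Q : Set ℕ) (x y : ℝ) (k : ℕ) (l : ℤ) (n : ℕ) (hn : 1 ≤ n) (hy : 0 ≤ y) (hyx : y ≤ x) :
    cnt Q x y k l n = NQ Q x y k l n := by
  classical
  unfold cnt NQ
  rw [← Set.ncard_coe_finset]
  congr 1
  ext m
  rw [Set.mem_ofPred_eq, mem_coe, mem_filter, mem_Ap hn hy hyx]
  tauto

/-- **Theorem.** Let `0 < θ < 1`, `0 < η ≤ 1` and `ε > 0`. There are `δ > 0` and `z₀` such that for ALL moduli `k`,
all `l`, all real `y ≤ x` with `z = y / k ≥ z₀`, every set `Q` of integers which are prime or free of prime factors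
`≤ √z` (for example the set of all primes) and every interval `(U, V]` with `z ^ η ≤ V ≤ z ^ θ`:

(1) in the sense of the sums of `1 / n` over the `n ∈ (U, V]` prime to `k`, the dilates `P / n` with at least
`(2 - δ)` times the main term of elements of `Q` are, up to `ε` times the sum over all `n ≤ V` prime to `k`, not more
than the dilates with at most `ε` times the main term of elements of `Q`;

(2) if the sum of `1 / n` over `(U, V]` is at least `η` times the sum over `(0, V]` (for example if `U = 0`), then,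
summed over the `n ∈ (U, V]` prime to `k`, the inequality of Brun and Titchmarsh holds with the constant `2 - δ`. -/
theorem result (θ η ε : ℝ) (hθ0 : 0 < θ) (hθ1 : θ < 1) (hη0 : 0 < η) (hη1 : η ≤ 1) (hε : 0 < ε) :
    ∃ δ : ℝ, 0 < δ ∧ ∃ z₀ : ℝ, ∀ (k : ℕ) (l : ℤ) (x y : ℝ), 1 ≤ k → y ≤ x → z₀ ≤ y / k →
      ∀ Q : Set ℕ, (∀ m ∈ Q, m.Prime ∨ ∀ p : ℕ, p.Prime → p ∣ m → Real.sqrt (y / k) < p) →
      ∀ U V : ℕ, (y / k) ^ η ≤ V → (V : ℝ) ≤ (y / k) ^ θ →
        mass k U V (fun n => (2 - δ) * mainTerm y k n ≤ cnt Q x y k l n) ≤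
          mass k U V (fun n => (cnt Q x y k l n : ℝ) ≤ ε * mainTerm y k n) +
            ε * mass k 0 V (fun _ => True) ∧
        (η * mass k 0 V (fun _ => True) ≤ mass k U V (fun _ => True) →
          ∑ n ∈ (Ioc U V).filter (fun n => Nat.Coprime n k), (cnt Q x y k l n : ℝ) ≤
            (2 - δ) * ∑ n ∈ (Ioc U V).filter (fun n => Nat.Coprime n k), mainTerm y k n) := by
  classical
  obtain ⟨ε', hε'⟩ : ∃ ε' : ℝ, ε' = min ε 1 := ⟨_, rfl⟩
  have hε'0 : 0 < ε' := by rw [hε']; exact lt_min hε one_pos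
  have hε'1 : ε' ≤ 1 := by rw [hε']; exact min_le_right _ _
  have hε'2 : ε' ≤ ε := by rw [hε']; exact min_le_left _ _
  obtain ⟨ρ, hρ0, hρ1, z1, hz11, h1⟩ := main1 θ η ε' hθ0 hθ1 hη0 hη1 hε'0 hε'1
  obtain ⟨δ, hδ0, z2, hz21, h2⟩ := main2 θ η hθ0 hθ1 hη0 hη1
  refine ⟨min ρ δ, lt_min hρ0 hδ0, max z1 z2, ?_⟩
  intro k l x y hk hyx hzy Q hQ U V hVη hVθ
  have hk0 : (0 : ℝ) < k := by exact_mod_cast hk
  have hz1 : 1 < y / k := lt_of_lt_of_le hz11 ((le_max_left _ _).trans hzy)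
  have hy : 0 ≤ y := by
    rw [lt_div_iff₀ hk0] at hz1
    linarith
  have g1 := h1 x y k l hk hy hyx ((le_max_left _ _).trans hzy) Q hQ U V hVη hVθ
  have g2 := h2 x y k l hk hy hyx ((le_max_right _ _).trans hzy) Q hQ U V hVη hVθ
  -- positivity of the main terms
  have hMT0 : ∀ n ∈ BB k V, 0 ≤ MT y k n := by
    intro n hn
    rw [mem_BB] at hn
    have hn0 : (0 : ℝ) < n := by exact_mod_cast hn.1.1
    have h3 : (n : ℝ) ≤ y / k := by
      have h4 : (n : ℝ) ≤ V := by exact_mod_cast hn.1.2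
      refine h4.trans (hVθ.trans ?_)
      calc (y / k) ^ θ ≤ (y / k) ^ (1 : ℝ) := Real.rpow_le_rpow_of_exponent_le hz1.le hθ1.le
        _ = y / k := Real.rpow_one _
    have h4 : 1 ≤ y / k / n := by
      rw [le_div_iff₀ hn0]
      linarith
    unfold MT
    have := Real.log_nonneg h4
    have h5 := one_le_Ph k hk
    positivity
  have hBB : ∀ n ∈ BB k V, 1 ≤ n := fun n hn => (mem_BB.1 hn).1.1
  have hfil : ∀ U' : ℕ, ∀ E : ℕ → Prop, (Ioc U' V).filter (fun n => Nat.Coprime n k ∧ E n) =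
      (BB k V).filter (fun n => U' < n ∧ E n) := by
    intro U' E
    ext n
    rw [mem_filter, mem_filter, mem_BB, mem_Ioc]
    constructor
    · rintro ⟨⟨h3, h4⟩, h5, h6⟩
      exact ⟨⟨⟨by omega, h4⟩, h5⟩, h3, h6⟩
    · rintro ⟨⟨⟨h3, h4⟩, h5⟩, h6, h7⟩
      exact ⟨⟨h6, h4⟩, h5, h7⟩
  have hfil2 : (Ioc U V).filter (fun n => Nat.Coprime n k) = (BB k V).filter (fun n => U < n) := by
    ext n
    rw [mem_filter, mem_filter, mem_BB, mem_Ioc]
    constructor
    · rintro ⟨⟨h3, h4⟩, h5⟩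
      exact ⟨⟨⟨by omega, h4⟩, h5⟩, h3⟩
    · rintro ⟨⟨⟨h3, h4⟩, h5⟩, h6⟩
      exact ⟨⟨h6, h4⟩, h5⟩
  have hall : mass k 0 V (fun _ => True) = SS k V := by
    unfold mass
    rw [SS_eq]
    apply sum_congr _ fun _ _ => rfl
    ext n
    simp only [mem_filter, mem_Ioc, mem_BB, and_true]
    constructor
    · rintro ⟨⟨h3, h4⟩, h5⟩
      exact ⟨⟨h3, h4⟩, h5⟩
    · rintro ⟨⟨h3, h4⟩, h5⟩
      exact ⟨⟨h3, h4⟩, h5⟩
  rw [hall]
  constructor
  · unfold mass
    rw [hfil, hfil]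
    have e1 : ∑ n ∈ (BB k V).filter (fun n => U < n ∧ (2 - min ρ δ) * mainTerm y k n ≤ cnt Q x y k l n),
        1 / (n : ℝ) ≤
        ∑ n ∈ (BB k V).filter (fun n => U < n ∧ (2 - ρ) * MT y k n ≤ NQ Q x y k l n), 1 / (n : ℝ) := by
      apply sum_le_sum_of_subset_of_nonneg
      · intro n hn
        rw [mem_filter] at hn ⊢
        refine ⟨hn.1, hn.2.1, ?_⟩
        have h3 := hn.2.2
        rw [mainTerm_eq, cnt_eq Q x y k l n (hBB n hn.1) hy hyx] at h3
        refine le_trans ?_ h3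
        apply mul_le_mul_of_nonneg_right _ (hMT0 n hn.1)
        have := min_le_left ρ δ
        linarith
      · intro _ _ _
        positivity
    have e2 : ∑ n ∈ (BB k V).filter (fun n => U < n ∧ (NQ Q x y k l n : ℝ) ≤ ε' * MT y k n), 1 / (n : ℝ) ≤
        ∑ n ∈ (BB k V).filter (fun n => U < n ∧ (cnt Q x y k l n : ℝ) ≤ ε * mainTerm y k n), 1 / (n : ℝ) := by
      apply sum_le_sum_of_subset_of_nonneg
      · intro n hn
        rw [mem_filter] at hn ⊢
        refine ⟨hn.1, hn.2.1, ?_⟩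
        rw [mainTerm_eq, cnt_eq Q x y k l n (hBB n hn.1) hy hyx]
        exact hn.2.2.trans (mul_le_mul_of_nonneg_right hε'2 (hMT0 n hn.1))
      · intro _ _ _
        positivity
    have e3 : ε' * SS k V ≤ ε * SS k V := mul_le_mul_of_nonneg_right hε'2 (SS_nonneg k V)
    linarith
  · intro hwin
    have hwin' : η * SS k V ≤ ∑ n ∈ (BB k V).filter (fun n => U < n), 1 / (n : ℝ) := by
      refine hwin.trans (le_of_eq ?_)
      unfold mass
      rw [← hfil2]
      apply sum_congr _ fun _ _ => rfl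
      ext n
      simp
    have g3 := g2 hwin'
    rw [hfil2]
    have e1 : ∑ n ∈ (BB k V).filter (fun n => U < n), (cnt Q x y k l n : ℝ) =
        ∑ n ∈ (BB k V).filter (fun n => U < n), (NQ Q x y k l n : ℝ) :=
      sum_congr rfl fun n hn => by rw [cnt_eq Q x y k l n (hBB n (mem_filter.1 hn).1) hy hyx]
    have e2 : ∑ n ∈ (BB k V).filter (fun n => U < n), mainTerm y k n =
        ∑ n ∈ (BB k V).filter (fun n => U < n), MT y k n :=
      sum_congr rfl fun n _ => mainTerm_eq y k n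
    rw [e1, e2]
    refine g3.trans ?_
    apply mul_le_mul_of_nonneg_right _ (sum_nonneg fun n hn => hMT0 n (mem_filter.1 hn).1)
    have := min_le_right ρ δ
    linarith

end Pool.Agent.Results.MP_26a8c3_nt.CompensationH87
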