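import Pool.Agent.E8helper28.BT.Main2

set_option autoImplicit false

/-!
# The structure of near-extremal progressions for the Brun-Titchmarsh inequality

If a progression of `N` terms, of any modulus and in any position, contains almost as many primes
as the Brun-Titchmarsh inequality allows (`(2 - δ) (q / φ(q)) N / log N`), then Selberg's truncated
divisor sum `∑ μ(d) (1 - log d / log √N)` (over the divisors `d ≤ √N`) is small at almost all
terms which are not prime but have no prime factor up to `N ^ η`. In particular almost no term is a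
product of two primes larger than `N ^ η`.
-/

namespace Pool.Agent.Results.MP_26a8c3_nt.NearExtremalH28

open Finset
open scoped ArithmeticFunction.Moebius

/-- Selberg's truncated divisor sum: `∑ μ(d) (1 - log d / log √N)` over the divisors `d ≤ √N` of `n` -/
noncomputable def W (N n : ℕ) : ℝ :=
  ∑ d ∈ n.divisors.filter (fun d => d ^ 2 ≤ N), (μ d : ℝ) * (1 - 2 * Real.log d / Real.log N)

/-- the number of the prime factors `p ≤ √N` of `n` -/
def small (N n : ℕ) : ℕ := (n.primeFactors.filter (fun p => p ^ 2 ≤ N)).card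

open Classical in
/-- the number of the `t < N` such that the term `a + t q` has the property `P` -/
noncomputable def count (a q N : ℕ) (P : ℕ → Prop) : ℕ :=
  ((range N).filter (fun t => P (a + t * q))).card

/-- `n` is not prime, and all its prime factors are larger than `N ^ η` -/
def Rough (η : ℝ) (N n : ℕ) : Prop :=
  ¬ n.Prime ∧ ∀ p : ℕ, p.Prime → p ∣ n → (N : ℝ) ^ η < p

lemma count_le {a q N : ℕ} {P : ℕ → Prop} {S : Finset ℕ}
    (h : ∀ t : ℕ, t < N → P (a + t * q) → t ∈ S) : count a q N P ≤ S.card := by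
  classical
  unfold count
  apply card_le_card
  intro t ht
  have ht' := mem_filter.1 ht
  exact h t (mem_range.1 ht'.1) ht'.2

/-- the divisor sum is large if there is at most one small prime factor -/
lemma W_large {η : ℝ} (hη : 0 < η) (hη2 : η ≤ 1 / 2) {N n : ℕ} (hN : 2 ≤ N) (hn : n ≠ 0)
    (hr : Rough η N n) (hs : small N n ≤ 1) : η < |W N n| := by
  classical
  have hN1 : (1 : ℝ) < N := by exact_mod_cast (by omega : 1 < N)
  have hlogN : 0 < Real.log N := Real.log_pos hN1
  obtain ⟨D, hD⟩ : ∃ D : Finset ℕ, D = n.divisors.filter (fun d => Squarefree d ∧ d ^ 2 ≤ N) :=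
    ⟨_, rfl⟩
  have hW : W N n = ∑ d ∈ D, (μ d : ℝ) * (1 - 2 * Real.log d / Real.log N) := by
    unfold W
    symm
    rw [hD]
    apply sum_subset
    · intro d hd
      rw [mem_filter] at hd ⊢
      exact ⟨hd.1, hd.2.2⟩
    · intro d hd hd2
      rw [mem_filter] at hd hd2
      have : ¬ Squarefree d := fun h => hd2 ⟨hd.1, h, hd.2⟩
      rw [ArithmeticFunction.moebius_eq_zero_of_not_squarefree this]
      simp
  have hpf : ∀ d ∈ D, d.primeFactors ⊆ n.primeFactors.filter (fun p => p ^ 2 ≤ N) := by
    intro d hd p hp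
    rw [hD, mem_filter, Nat.mem_divisors] at hd
    rw [mem_filter, Nat.mem_primeFactors]
    rw [Nat.mem_primeFactors] at hp
    refine ⟨⟨hp.1, hp.2.1.trans hd.1.1, hn⟩, ?_⟩
    exact (Nat.pow_le_pow_left (Nat.le_of_dvd (Nat.pos_of_ne_zero hp.2.2) hp.2.1) 2).trans hd.2.2
  have h1D : 1 ∈ D := by
    rw [hD, mem_filter, Nat.mem_divisors]
    exact ⟨⟨one_dvd n, hn⟩, squarefree_one, by omega⟩
  rw [hW]
  rcases Finset.eq_empty_or_nonempty (n.primeFactors.filter (fun p => p ^ 2 ≤ N)) with he | hne
  · have hD1 : D = {1} := by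
      apply Subset.antisymm
      · intro d hd
        have h1 := hpf d hd
        rw [he, subset_empty, Nat.primeFactors_eq_empty] at h1
        rw [hD, mem_filter] at hd
        rw [mem_singleton]
        rcases h1 with h1 | h1
        · exact absurd h1 hd.2.1.ne_zero
        · exact h1
      · intro d hd
        rw [mem_singleton] at hd
        rw [hd]
        exact h1D
    rw [hD1, sum_singleton]
    simp
    linarith
  · have hcard : (n.primeFactors.filter (fun p => p ^ 2 ≤ N)).card = 1 :=
      le_antisymm hs (card_pos.2 hne)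
    obtain ⟨p, hp⟩ := card_eq_one.1 hcard
    have hpm : p ∈ n.primeFactors.filter (fun p => p ^ 2 ≤ N) := by
      rw [hp]
      exact mem_singleton_self p
    rw [mem_filter, Nat.mem_primeFactors] at hpm
    obtain ⟨⟨hpp, hpn, -⟩, hpN⟩ := hpm
    have hD2 : D = {1, p} := by
      apply Subset.antisymm
      · intro d hd
        have h1 := hpf d hd
        rw [hp] at h1
        rw [hD, mem_filter] at hd
        have h2 := Nat.prod_primeFactors_of_squarefree hd.2.1
        rw [mem_insert, mem_singleton]
        rcases subset_singleton_iff.1 h1 with h3 | h3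
        · left
          rw [← h2, h3, prod_empty]
        · right
          rw [← h2, h3, prod_singleton]
      · intro d hd
        rw [mem_insert, mem_singleton] at hd
        rcases hd with rfl | rfl
        · exact h1D
        · rw [hD, mem_filter, Nat.mem_divisors]
          exact ⟨⟨hpn, hn⟩, hpp.squarefree, hpN⟩
    rw [hD2, sum_insert (by
      rw [mem_singleton]
      exact hpp.one_lt.ne), sum_singleton, ArithmeticFunction.moebius_apply_prime hpp]
    simp only [ArithmeticFunction.moebius_apply_one, Int.cast_one,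
      Nat.cast_one, Real.log_one, mul_zero, zero_div, sub_zero, mul_one, Int.cast_neg]
    have h1 : (N : ℝ) ^ η < p := hr.2 p hpp hpn
    have h2 : η * Real.log N < Real.log p := by
      rw [← Real.log_rpow (by linarith)]
      exact Real.log_lt_log (by positivity) h1
    have h3 : 2 * η < 2 * Real.log p / Real.log N := by
      rw [lt_div_iff₀ hlogN]
      linarith
    refine lt_of_lt_of_le ?_ (le_abs_self _)
    linarith

/-- **The structure of near-extremal progressions.** -/
theorem result (η ε : ℝ) (k : ℕ) (hη : 0 < η) (hη2 : η ≤ 1 / 2) (hε : 0 < ε) :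
    ∃ δ : ℝ, 0 < δ ∧ ∃ N₀ : ℕ, ∀ a q N : ℕ, 1 ≤ q → Nat.Coprime a q → N₀ ≤ N →
      (2 - δ) * (((q : ℝ) / Nat.totient q) * N / Real.log N) ≤ count a q N Nat.Prime →
      (count a q N (fun n => Rough η N n ∧ small N n ≤ k ∧ ε < |W N n|) : ℝ) ≤
          ε * (((q : ℝ) / Nat.totient q) * N / Real.log N) ∧
        (count a q N (fun n => Rough η N n ∧ small N n ≤ 1) : ℝ) ≤
          ε * (((q : ℝ) / Nat.totient q) * N / Real.log N) := by
  classical
  obtain ⟨δ₁, hδ₁, N₁, h₁⟩ := Pool.Agent.E8helper28.BT.near_extremal η ε k hη hη2 hε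
  obtain ⟨e, he, he1, he2⟩ : ∃ e : ℝ, 0 < e ∧ e ≤ ε ∧ e ≤ η :=
    ⟨min ε η, by positivity, min_le_left _ _, min_le_right _ _⟩
  obtain ⟨δ₂, hδ₂, N₂, h₂⟩ := Pool.Agent.E8helper28.BT.near_extremal η e 1 hη hη2 he
  have hev : ∀ᶠ x : ℝ in Filter.atTop, 2 ≤ x ^ η :=
    (tendsto_rpow_atTop hη).eventually (Filter.eventually_ge_atTop _)
  obtain ⟨N₃, h₃⟩ := Filter.eventually_atTop.1
    ((tendsto_natCast_atTop_atTop (R := ℝ)).eventually hev)
  refine ⟨min δ₁ δ₂, lt_min hδ₁ hδ₂, N₁ + N₂ + N₃ + 2, ?_⟩
  intro a q N hq hcop hN hext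
  have hN2 : 2 ≤ N := by omega
  have hlogN : 0 < Real.log N := Real.log_pos (by exact_mod_cast (by omega : 1 < N))
  have ht' : (0 : ℝ) < Nat.totient q := by exact_mod_cast Nat.totient_pos.2 hq
  have hB : 0 ≤ ((q : ℝ) / Nat.totient q) * N / Real.log N := by positivity
  have hcount : (count a q N Nat.Prime : ℝ) =
      (((range N).filter (fun t => (a + t * q).Prime)).card : ℝ) := by
    unfold count
    congr 2
    apply filter_congr_decidable
  rw [hcount] at hext
  constructor
  · have h := h₁ a q N hq hcop (by omega) (by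
      refine le_trans ?_ hext
      apply mul_le_mul_of_nonneg_right _ hB
      have := min_le_left δ₁ δ₂
      linarith)
    refine le_trans ?_ h
    rw [Nat.cast_le]
    refine count_le fun t htN ht => ?_
    rw [Pool.Agent.E8helper28.BT.cls2, mem_filter, mem_range]
    exact ⟨htN, ht.1.1, ht.1.2, ht.2.1, ht.2.2⟩
  · have h := h₂ a q N hq hcop (by omega) (by
      refine le_trans ?_ hext
      apply mul_le_mul_of_nonneg_right _ hB
      have := min_le_right δ₁ δ₂
      linarith)
    refine le_trans ?_ (h.trans (mul_le_mul_of_nonneg_right he1 hB))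
    rw [Nat.cast_le]
    refine count_le fun t htN ht => ?_
    rw [Pool.Agent.E8helper28.BT.cls2, mem_filter, mem_range]
    refine ⟨htN, ht.1.1, ht.1.2, ht.2, ?_⟩
    have hne : a + t * q ≠ 0 := by
      intro h0
      have h1 := ht.1.2 2 Nat.prime_two (by rw [h0]; exact dvd_zero 2)
      have h4 := h₃ N (by omega)
      push_cast at h1
      linarith
    exact lt_of_le_of_lt he2 (W_large hη hη2 hN2 hne ht.1 ht.2)

end Pool.Agent.Results.MP_26a8c3_nt.NearExtremalH28
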